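import Pool.Agent.H85.KS2.Targets

/-! Row CD of ks2_modules: every class modulo `p` is a sum of `k` `k`-th powers. -/

set_option autoImplicit false

open Pool.Agent.H98.KS Pool.Agent.H85.KS2

namespace Pool.Agent.H96.KS2

open Finset
open scoped Pointwise

theorem ks2_CD : T_CD := by
  intro k p c hk hp hpk
  classical
  have : Fact p.Prime := ⟨hp⟩
  set A : Finset (ZMod p) := univ.image fun x : ZMod p => x ^ k with hA
  have hA0 : (0 : ZMod p) ∈ A := mem_image.mpr ⟨0, mem_univ _, zero_pow (by omega)⟩
  have hfib : ∀ a : ZMod p, (univ.filter fun x : ZMod p => x ^ k = a).card ≤ k := by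
    intro a
    calc (univ.filter fun x : ZMod p => x ^ k = a).card
        ≤ (Polynomial.nthRoots k a).toFinset.card := by
          refine card_le_card fun x hx => ?_
          rw [Multiset.mem_toFinset, Polynomial.mem_nthRoots (by omega)]
          exact (mem_filter.mp hx).2
      _ ≤ (Polynomial.nthRoots k a).card := Multiset.toFinset_card_le _
      _ ≤ k := Polynomial.card_nthRoots k a
  have hcard : p - 1 ≤ k * (A.card - 1) := by
    have h1 := card_le_mul_card_image (f := fun x : ZMod p => x ^ k)
      ((univ : Finset (ZMod p)).erase 0) k (fun a _ => by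
        refine (card_le_card ?_).trans (hfib a)
        intro x hx
        rw [mem_filter] at hx ⊢
        exact ⟨mem_univ _, hx.2⟩)
    rw [card_erase_of_mem (mem_univ _), card_univ, ZMod.card] at h1
    refine h1.trans (Nat.mul_le_mul_left _ ?_)
    rw [← card_erase_of_mem hA0]
    refine card_le_card ?_
    intro a ha
    obtain ⟨x, hx, rfl⟩ := mem_image.mp ha
    rw [mem_erase]
    exact ⟨pow_ne_zero k (ne_of_mem_erase hx), mem_image.mpr ⟨x, mem_univ _, rfl⟩⟩
  have hAc : 1 ≤ A.card := card_pos.mpr ⟨0, hA0⟩
  have key : ∀ j : ℕ, ∃ B : Finset (ZMod p), B.Nonempty ∧ min p (j * (A.card - 1) + 1) ≤ B.card ∧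
      ∀ b ∈ B, ∃ x : Fin j → ZMod p, ∑ i, x i ^ k = b := by
    intro j
    induction j with
    | zero =>
      refine ⟨{0}, singleton_nonempty _, ?_, ?_⟩
      · rw [zero_mul, zero_add, card_singleton]
        exact min_le_right _ _
      · intro b hb
        rw [mem_singleton] at hb
        exact ⟨fun _ => 0, by rw [hb]; simp⟩
    | succ j ih =>
      obtain ⟨B, hB1, hB2, hB3⟩ := ih
      have hcd := ZMod.cauchy_davenport hp (s := B) (t := A) hB1 ⟨0, hA0⟩
      refine ⟨B + A, hB1.add ⟨0, hA0⟩, ?_, ?_⟩
      · refine le_trans ?_ hcd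
        rw [le_min_iff]
        refine ⟨min_le_left _ _, ?_⟩
        have e : (j + 1) * (A.card - 1) = j * (A.card - 1) + (A.card - 1) := by ring
        rw [e]
        rcases le_total p (j * (A.card - 1) + 1) with h | h
        · rw [min_eq_left h] at hB2
          have h3 := min_le_left p (j * (A.card - 1) + (A.card - 1) + 1)
          omega
        · rw [min_eq_right h] at hB2
          have h3 := min_le_right p (j * (A.card - 1) + (A.card - 1) + 1)
          omega
      · intro b hb
        obtain ⟨b1, hb1, a, ha, rfl⟩ := mem_add.mp hb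
        obtain ⟨x, hx⟩ := hB3 b1 hb1
        obtain ⟨y, _, hy⟩ := mem_image.mp ha
        refine ⟨Fin.snoc x y, ?_⟩
        rw [Fin.sum_univ_castSucc]
        simp only [Fin.snoc_castSucc, Fin.snoc_last]
        rw [hx, hy]
  obtain ⟨B, _, hB2, hB3⟩ := key k
  have hp1 := hp.one_lt
  rw [min_eq_left (by omega)] at hB2
  have hBu : B = univ := by
    rw [← card_eq_iff_eq_univ, ZMod.card]
    refine le_antisymm ?_ hB2
    have := card_le_univ B
    rwa [ZMod.card] at this
  obtain ⟨x, hx⟩ := hB3 (c : ZMod p) (by rw [hBu]; exact mem_univ _)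
  refine ⟨fun i => ((x i).val : ℤ), ?_⟩
  rw [← ZMod.intCast_zmod_eq_zero_iff_dvd]
  push_cast
  simp only [ZMod.natCast_val, ZMod.cast_id', id]
  rw [hx, sub_self]

end Pool.Agent.H96.KS2
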