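import Pool.Agent.H85.KS2.Targets
import Pool.Agent.H14.KS.L1

/-! Rows L1a and L1b of ks2_modules: solutions modulo powers of small primes. -/

set_option autoImplicit false

open Pool.Agent.H98.KS Pool.Agent.H85.KS2

namespace Pool.Agent.H96.KS2

/-- the count -/
theorem l1_gen (k m p g n l : ℕ) (hp : p.Prime) (hn : g ≤ n) (r : Fin m → ℕ)
    (hr : ∀ i, r i < p ^ g) (hex : ∀ t : Fin m → ℕ, ∃ x : ℕ, x < p ^ n ∧
      x ^ k + ∑ i : Fin m, (r i + p ^ g * t i) ^ k ≡ l [MOD p ^ n]) :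
    p ^ (n * m) ≤ p ^ (g * m) * LS k (m + 1) (p ^ n) l := by
  have hpg : 0 < p ^ g := pow_pos hp.pos _
  choose X hX1 hX2 using hex
  have hcard : (Fintype.piFinset (fun _ : Fin m =>
      Finset.range (p ^ (n - g)))).card ≤ LS k (m + 1) (p ^ n) l := by
    unfold LS
    refine Finset.card_le_card_of_injOn (fun t => Fin.cons (X t)
      (fun i : Fin m => r i + p ^ g * t i)) ?_ ?_
    · intro t ht
      rw [Finset.mem_coe, Fintype.mem_piFinset] at ht
      rw [Finset.mem_coe, Finset.mem_filter, Fintype.mem_piFinset]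
      constructor
      · intro i
        refine Fin.cases ?_ (fun i => ?_) i
        · simp only [Fin.cons_zero, Finset.mem_range]
          exact hX1 t
        · simp only [Fin.cons_succ, Finset.mem_range]
          have h3 := ht i
          rw [Finset.mem_range] at h3
          have h4 : p ^ g * (t i + 1) ≤ p ^ n := by
            calc p ^ g * (t i + 1) ≤ p ^ g * p ^ (n - g) := Nat.mul_le_mul_left _ h3
              _ = p ^ n := by rw [← pow_add]; congr 1; omega
          have h6 := hr i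
          rw [mul_add, mul_one] at h4
          omega
      · rw [Fin.sum_univ_succ]
        simp only [Fin.cons_zero, Fin.cons_succ]
        exact hX2 t
    · intro t _ t' _ h
      funext i
      have h3 := congrFun h i.succ
      simp only [Fin.cons_succ] at h3
      have h4 : p ^ g * t i = p ^ g * t' i := by omega
      exact Nat.eq_of_mul_eq_mul_left hpg h4
  rw [Fintype.card_piFinset] at hcard
  simp only [Finset.card_range, Finset.prod_const, Finset.card_univ, Fintype.card_fin] at hcard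
  rw [← pow_mul] at hcard
  calc p ^ (n * m) = p ^ (g * m) * p ^ ((n - g) * m) := by
        rw [← pow_add, ← add_mul]
        congr 2
        omega
    _ ≤ _ := Nat.mul_le_mul_left _ hcard

/-- from an integer root to a natural number -/
theorem l1_root (k p n l : ℕ) (hp : p.Prime) (s : ℕ) (x : ℤ)
    (hx : (p : ℤ) ^ n ∣ x ^ k - ((l : ℤ) - s)) :
    ∃ x : ℕ, x < p ^ n ∧ x ^ k + s ≡ l [MOD p ^ n] := by
  have hpn : (0 : ℤ) < (p : ℤ) ^ n := by exact_mod_cast pow_pos hp.pos n
  refine ⟨(x % (p : ℤ) ^ n).toNat, ?_, ?_⟩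
  · have h7 := Int.emod_lt_of_pos x hpn
    have h8 := Int.emod_nonneg x hpn.ne'
    have : ((x % (p : ℤ) ^ n).toNat : ℤ) < ((p ^ n : ℕ) : ℤ) := by
      rw [Int.toNat_of_nonneg h8]
      push_cast
      exact h7
    exact_mod_cast this
  · rw [← Int.natCast_modEq_iff]
    push_cast
    rw [Int.toNat_of_nonneg (Int.emod_nonneg x hpn.ne')]
    have h9 : x % (p : ℤ) ^ n ≡ x [ZMOD (p : ℤ) ^ n] := Int.mod_modEq x _
    have h10 : x ^ k ≡ (l : ℤ) - s [ZMOD (p : ℤ) ^ n] := (Int.modEq_iff_dvd.mpr hx).symm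
    have h11 := ((h9.pow k).trans h10).add_right (s : ℤ)
    rw [sub_add_cancel] at h11
    exact h11

/-- the sum does not depend on the high parts modulo `p ^ g` -/
theorem l1_sum (k m p g : ℕ) (r t : Fin m → ℕ) :
    ∑ i : Fin m, (r i + p ^ g * t i) ^ k ≡ ∑ i : Fin m, r i ^ k [MOD p ^ g] := by
  rw [← ZMod.natCast_eq_natCast_iff]
  have h5 : ((p ^ g : ℕ) : ZMod (p ^ g)) = 0 := ZMod.natCast_self _
  push_cast at h5 ⊢
  rw [h5]
  simp

theorem ks2_L1a (hCD : T_CD) : T_L1a := by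
  intro k d p n l hk hp hpk hd
  obtain ⟨m, rfl⟩ : ∃ m, d = m + 1 := ⟨d - 1, by omega⟩
  rw [Nat.add_sub_cancel]
  rcases Nat.eq_zero_or_pos n with hn | hn
  · subst hn
    have h3 : 1 ≤ LS k (m + 1) (p ^ 0) l :=
      Pool.Agent.H14.KS.ls_pos k (m + 1) p 0 l hk hp (by rw [pow_zero]; omega)
    rw [zero_mul, pow_zero]
    rw [pow_zero] at h3
    exact Nat.mul_pos (pow_pos hp.pos _) h3
  · obtain ⟨r, hr⟩ := hCD k p ((l : ℤ) - 1) hk hp hpk
    have hpz : (0 : ℤ) < p := by exact_mod_cast hp.pos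
    set ρ : Fin m → ℕ := fun i => if h : (i : ℕ) < k then (r ⟨i, h⟩ % (p : ℤ)).toNat else 0 with hρ
    have hρlt : ∀ i, ρ i < p ^ 1 := by
      intro i
      rw [pow_one]
      simp only [hρ]
      split_ifs with h
      · have h7 := Int.emod_lt_of_pos (r ⟨i, h⟩) hpz
        have h8 := Int.emod_nonneg (r ⟨i, h⟩) hpz.ne'
        omega
      · exact hp.pos
    have hsum : (p : ℤ) ∣ ((∑ i : Fin m, ρ i ^ k : ℕ) : ℤ) - ((l : ℤ) - 1) := by
      have e1 : (∑ i : Fin m, ρ i ^ k) =
          ∑ i : Fin k, ((r i % (p : ℤ)).toNat) ^ k := by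
        symm
        have hkm : k ≤ m := by omega
        refine Finset.sum_of_injOn (fun i : Fin k => Fin.castLE hkm i) ?_ ?_ ?_ ?_
        · intro a _ b _ h
          exact Fin.castLE_injective hkm h
        · intro a _
          exact Finset.mem_coe.mpr (Finset.mem_univ _)
        · intro i _ hi
          have h : ¬ (i : ℕ) < k := by
            intro h
            apply hi
            exact ⟨⟨i, h⟩, Finset.mem_coe.mpr (Finset.mem_univ _), Fin.ext rfl⟩
          simp only [hρ]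
          rw [dif_neg h, zero_pow (by omega)]
        · intro i _
          simp only [hρ, Fin.val_castLE]
          rw [dif_pos i.2]
      rw [e1]
      rw [← ZMod.intCast_zmod_eq_zero_iff_dvd] at hr ⊢
      push_cast at hr ⊢
      have e2 : ∀ i : Fin k, (((r i % (p : ℤ)).toNat : ℕ) : ZMod p) = ((r i : ℤ) : ZMod p) := by
        intro i
        have h8 := Int.emod_nonneg (r i) hpz.ne'
        have e3 : (((r i % (p : ℤ)).toNat : ℕ) : ZMod p) =
            (((r i % (p : ℤ)).toNat : ℤ) : ZMod p) := by push_cast; rfl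
        rw [e3, Int.toNat_of_nonneg h8, ZMod.intCast_mod]
      simp only [e2]
      exact hr
    have h := l1_gen k m p 1 n l hp hn ρ hρlt (fun t => ?_)
    · rw [one_mul] at h
      exact h
    · set s := ∑ i : Fin m, (ρ i + p ^ 1 * t i) ^ k with hs
      have h1 := l1_sum k m p 1 ρ t
      rw [← hs, pow_one] at h1
      have h2 : (p : ℤ) ∣ ((∑ i : Fin m, ρ i ^ k : ℕ) : ℤ) - s := (Nat.modEq_iff_dvd).mp h1
      have ha : (p : ℤ) ^ (2 * 0 + 1) ∣ ((l : ℤ) - s) - 1 := by
        rw [mul_zero, zero_add, pow_one]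
        have h3 := dvd_sub h2 hsum
        have e : ((∑ i : Fin m, ρ i ^ k : ℕ) : ℤ) - s -
            (((∑ i : Fin m, ρ i ^ k : ℕ) : ℤ) - ((l : ℤ) - 1)) = (l : ℤ) - s - 1 := by ring
        rw [e] at h3
        exact h3
      obtain ⟨x, -, hx⟩ := Pool.Agent.H14.KS.hens p k 0 hp (one_dvd _)
        (by rw [zero_add, pow_one]; exact hpk) _ ha (n - 1)
      rw [show 2 * 0 + 1 + (n - 1) = n by omega] at hx
      exact l1_root k p n l hp s x hx

theorem ks2_L1b (hSH2 : T_SH2) : T_L1b := by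
  intro k d p v g n l hk hp h1 h2 hg hd
  have hg1 : 1 ≤ g := by omega
  rcases le_total n g with hn | hn
  · have h3 : 1 ≤ LS k d (p ^ n) l :=
      Pool.Agent.H14.KS.ls_pos k d p n l hk hp ((Nat.pow_le_pow_right hp.pos hn).trans hd)
    calc p ^ (n * (d - 1)) ≤ p ^ (g * (d - 1)) * 1 := by
          rw [mul_one]
          exact Nat.pow_le_pow_right hp.pos (Nat.mul_le_mul_right _ hn)
      _ ≤ _ := Nat.mul_le_mul_left _ h3
  · have hpg : 0 < p ^ g := pow_pos hp.pos _
    obtain ⟨m, rfl⟩ : ∃ m, d = m + 1 := ⟨d - 1, by omega⟩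
    rw [Nat.add_sub_cancel]
    obtain ⟨c, hc1, hcd, hcl⟩ : ∃ c, 1 ≤ c ∧ c ≤ p ^ g ∧ c ≡ l [MOD p ^ g] := by
      by_cases h0 : l % p ^ g = 0
      · refine ⟨p ^ g, hpg, le_rfl, ?_⟩
        unfold Nat.ModEq
        rw [h0, Nat.mod_self]
      · exact ⟨l % p ^ g, Nat.one_le_iff_ne_zero.mpr h0, (Nat.mod_lt l hpg).le,
          Nat.mod_modEq l _⟩
    have h5 : 1 < p ^ g := Nat.one_lt_pow (by omega) hp.one_lt
    refine l1_gen k m p g n l hp hn (fun i => if (i : ℕ) < c - 1 then 1 else 0) ?_ ?_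
    · intro i
      show (if (i : ℕ) < c - 1 then 1 else 0) < p ^ g
      split_ifs <;> omega
    · intro t
      set s := ∑ i : Fin m, ((if (i : ℕ) < c - 1 then 1 else 0) + p ^ g * t i) ^ k with hs
      have h6 := l1_sum k m p g (fun i => if (i : ℕ) < c - 1 then 1 else 0) t
      have h7 : ∑ i : Fin m, (if (i : ℕ) < c - 1 then 1 else 0) ^ k = c - 1 :=
        Pool.Agent.H14.KS.sum_ind k m (c - 1) hk (by omega)
      have h8 : s ≡ c - 1 [MOD p ^ g] := by
        rw [← h7]
        exact h6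
      have ha : (p : ℤ) ^ g ∣ ((l : ℤ) - s) - 1 := by
        have h9 : ((p ^ g : ℕ) : ℤ) ∣ ((c - 1 : ℕ) : ℤ) - s := (Nat.modEq_iff_dvd).mp h8
        have h10 : ((p ^ g : ℕ) : ℤ) ∣ (l : ℤ) - c := (Nat.modEq_iff_dvd).mp hcl
        push_cast at h9 h10
        rw [Nat.cast_sub hc1] at h9
        have := dvd_add h9 h10
        have e : ((c : ℤ) - (1 : ℕ) - s) + ((l : ℤ) - c) = (l : ℤ) - s - 1 := by push_cast; ring
        rwa [e] at this
      obtain ⟨x, -, hx⟩ := hSH2 k p v g _ hk hp h1 h2 hg ha n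
      exact l1_root k p n l hp s x hx

end Pool.Agent.H96.KS2
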